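import Pool.Agent.Helper18.TR.St

/-! # MP_27c4f6_nt, TR module FL: fundamental lemma of the sieve, abstract form -/

namespace Pool.Agent.Helper18.TR

open Finset Pool.Agent.Helper18.ED

theorem fl_subset {w b : ℕ} {Q T : Finset ℕ} (hT : T ∈ fam0 w b Q ∪ fam1 w b Q) : T ⊆ Q := by
  rcases Finset.mem_union.1 hT with h | h
  · unfold fam0 at h
    exact Finset.mem_powerset.1 ((@Finset.mem_filter _ _ (_) _ _).1 h).1
  · unfold fam1 at h
    exact Finset.mem_powerset.1 ((@Finset.mem_filter _ _ (_) _ _).1 h).1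

/-- the number of sets of the family -/
theorem fl_card {w b B : ℕ} {Q : Finset ℕ} (hQ : ∀ p ∈ Q, p.Prime ∧ p ≤ w)
    (hlev : ∀ T ∈ fam0 w b Q ∪ fam1 w b Q, ∏ p ∈ T, p ≤ w ^ B) :
    (fam0 w b Q ∪ fam1 w b Q).card ≤ w ^ B := by
  have h1 : (fam0 w b Q ∪ fam1 w b Q).card ≤ (Finset.Icc 1 (w ^ B)).card := by
    refine Finset.card_le_card_of_injOn (fun T => ∏ p ∈ T, p) ?_ ?_
    · intro T hT
      have hTQ := fl_subset hT
      rw [Finset.mem_coe, Finset.mem_Icc]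
      exact ⟨Finset.prod_pos fun p hp => (hQ p (hTQ hp)).1.pos, hlev T hT⟩
    · intro T hT T' hT' h
      have h1 : ∀ S ∈ fam0 w b Q ∪ fam1 w b Q, (∏ p ∈ S, p).primeFactors = S := fun S hS =>
        Nat.primeFactors_prod fun p hp => (hQ p (fl_subset hS hp)).1
      have h2 : ∏ p ∈ T, p = ∏ p ∈ T', p := h
      rw [← h1 T hT, ← h1 T' hT', h2]
  rwa [Nat.card_Icc, Nat.add_sub_cancel] at h1

/-- counting with the indicator functions -/
theorem fl_count {α : Type} (A : Finset α) (E : ℕ → α → Prop) [∀ p, DecidablePred (E p)]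
    (T : Finset ℕ) :
    ((A.filter (fun a => ∀ p ∈ T, E p a)).card : ℝ) =
      ∑ a ∈ A, ∏ p ∈ T, (if E p a then (1 : ℝ) else 0) := by
  rw [Finset.card_filter, Nat.cast_sum]
  refine Finset.sum_congr rfl fun a _ => ?_
  rw [Finset.prod_ite_zero]
  push_cast
  simp

theorem fl_count' {α : Type} (A : Finset α) (E : ℕ → α → Prop) [∀ p, DecidablePred (E p)]
    (T : Finset ℕ) :
    ((A.filter (fun a => ∀ p ∈ T, ¬ E p a)).card : ℝ) =
      ∑ a ∈ A, ∏ p ∈ T, (1 - if E p a then (1 : ℝ) else 0) := by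
  rw [fl_count A (fun p a => ¬ E p a)]
  refine Finset.sum_congr rfl fun a _ => Finset.prod_congr rfl fun p _ => ?_
  by_cases h : E p a
  · simp [h]
  · simp [h]

theorem fl_sum {α : Type} (A : Finset α) (E : ℕ → α → Prop) [∀ p, DecidablePred (E p)]
    (ℱ : Finset (Finset ℕ)) :
    ∑ a ∈ A, ∑ T ∈ ℱ, (-1 : ℝ) ^ T.card * ∏ p ∈ T, (if E p a then (1 : ℝ) else 0) =
      ∑ T ∈ ℱ, (-1 : ℝ) ^ T.card * ((A.filter (fun a => ∀ p ∈ T, E p a)).card : ℝ) := by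
  rw [Finset.sum_comm]
  refine Finset.sum_congr rfl fun T _ => ?_
  rw [fl_count, Finset.mul_sum]

theorem fl_diff {α : Type} {w b B : ℕ} {Q : Finset ℕ} (A : Finset α) (E : ℕ → α → Prop)
    [∀ p, DecidablePred (E p)] {g : ℕ → ℝ} {N R : ℝ} (hR : 0 ≤ R)
    (hcard : (fam0 w b Q ∪ fam1 w b Q).card ≤ w ^ B)
    (hc : ∀ T ∈ fam0 w b Q ∪ fam1 w b Q,
      |((A.filter (fun a => ∀ p ∈ T, E p a)).card : ℝ) - N * ∏ p ∈ T, g p| ≤ R)
    {ℱ : Finset (Finset ℕ)} (hℱ : ℱ ⊆ fam0 w b Q ∪ fam1 w b Q) :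
    |∑ T ∈ ℱ, (-1 : ℝ) ^ T.card * ((A.filter (fun a => ∀ p ∈ T, E p a)).card : ℝ) -
      N * ∑ T ∈ ℱ, (-1 : ℝ) ^ T.card * ∏ p ∈ T, g p| ≤ (w : ℝ) ^ B * R := by
  rw [Finset.mul_sum, ← Finset.sum_sub_distrib]
  calc |∑ T ∈ ℱ, ((-1 : ℝ) ^ T.card * ((A.filter (fun a => ∀ p ∈ T, E p a)).card : ℝ) -
        N * ((-1 : ℝ) ^ T.card * ∏ p ∈ T, g p))|
      ≤ ∑ T ∈ ℱ, |(-1 : ℝ) ^ T.card * ((A.filter (fun a => ∀ p ∈ T, E p a)).card : ℝ) -
        N * ((-1 : ℝ) ^ T.card * ∏ p ∈ T, g p)| := Finset.abs_sum_le_sum_abs _ _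
    _ ≤ ∑ _T ∈ ℱ, R := by
        refine Finset.sum_le_sum fun T hT => ?_
        have h1 : (-1 : ℝ) ^ T.card * ((A.filter (fun a => ∀ p ∈ T, E p a)).card : ℝ) -
            N * ((-1 : ℝ) ^ T.card * ∏ p ∈ T, g p) = (-1 : ℝ) ^ T.card *
              (((A.filter (fun a => ∀ p ∈ T, E p a)).card : ℝ) - N * ∏ p ∈ T, g p) := by ring
        rw [h1, abs_mul, abs_pow, abs_neg, abs_one, one_pow, one_mul]
        exact hc T (hℱ hT)
    _ = (ℱ.card : ℝ) * R := by rw [Finset.sum_const, nsmul_eq_mul]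
    _ ≤ (w : ℝ) ^ B * R := by
        refine mul_le_mul_of_nonneg_right ?_ hR
        exact_mod_cast (Finset.card_le_card hℱ).trans hcard

theorem pf_FL (hB : StBonf) (hM : StFLmain) (hL : StLevel) : StFL := by
  intro κ ε hκ hε
  obtain ⟨b, hb, hmain⟩ := hM κ ε hκ hε
  obtain ⟨B, hlev⟩ := hL b
  refine ⟨B, ?_⟩
  intro w hw Q hQ g hg α A E _ N R hN hR hcount
  obtain ⟨hm1, hm2⟩ := hmain w Q hQ g hg
  have hlev' := hlev w (by omega) Q hQ
  have hcard := fl_card hQ hlev'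
  have hc : ∀ T ∈ fam0 w b Q ∪ fam1 w b Q,
      |((A.filter (fun a => ∀ p ∈ T, E p a)).card : ℝ) - N * ∏ p ∈ T, g p| ≤ R :=
    fun T hT => hcount T (fl_subset hT) (hlev' T hT)
  have hbonf : ∀ a : α, _ := fun a => hB w b Q (fun p => if E p a then (1 : ℝ) else 0) hb
    (fun p _ => by split_ifs <;> norm_num)
  have hup : ((A.filter (fun a => ∀ p ∈ Q, ¬ E p a)).card : ℝ) ≤
      ∑ T ∈ fam0 w b Q, (-1 : ℝ) ^ T.card * ((A.filter (fun a => ∀ p ∈ T, E p a)).card : ℝ) := by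
    rw [fl_count', ← fl_sum]
    exact Finset.sum_le_sum fun a _ => (hbonf a).2
  have hlo : ∑ T ∈ fam0 w b Q ∪ fam1 w b Q,
      (-1 : ℝ) ^ T.card * ((A.filter (fun a => ∀ p ∈ T, E p a)).card : ℝ) ≤
        ((A.filter (fun a => ∀ p ∈ Q, ¬ E p a)).card : ℝ) := by
    rw [fl_count', ← fl_sum]
    exact Finset.sum_le_sum fun a _ => (hbonf a).1
  have hd1 := fl_diff A E hR hcard hc (Finset.subset_union_left :
    fam0 w b Q ⊆ fam0 w b Q ∪ fam1 w b Q)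
  have hd2 := fl_diff A E hR hcard hc (Finset.Subset.refl (fam0 w b Q ∪ fam1 w b Q))
  have hm1' := mul_le_mul_of_nonneg_left hm1 hN
  have hm2' := mul_le_mul_of_nonneg_left hm2 hN
  rw [abs_le] at hd1 hd2 ⊢
  obtain ⟨hd1a, hd1b⟩ := hd1
  obtain ⟨hd2a, hd2b⟩ := hd2
  constructor
  · nlinarith
  · nlinarith

end Pool.Agent.Helper18.TR
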